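import Pool.Agent.H96.JCT.Stmts

/-!
Row SEG of the board `jct`: the segment and the two half circles.
-/

set_option autoImplicit false

namespace Pool.JCT

open Complex Set Topology Filter

theorem seg_aux (h1 : REP_S) (h2 : HRE_S) (Ψ : Pl ≃ₜ Pl) (ε : ℝ) (p : Pl) (hε : 0 < ε) (c : ℝ)
    (hp : ∀ x : ℝ, 0 ≤ x → p.2 ≠ c * x) :
    inc (fun t => Ψ (t, 0)) (-ε) ε (Ψ p) =
      inc (fun t => Ψ (-(ε * Real.cos t), c * (ε * Real.sin t))) 0 Real.pi (Ψ p) := by
  have hpi : (0 : ℝ) ≤ Real.pi := Real.pi_pos.le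
  have e1 : inc (fun t => Ψ (-(ε * Real.cos t), 0)) 0 Real.pi (Ψ p) =
      inc (fun t => Ψ (t, 0)) (-ε) ε (Ψ p) := by
    refine h1 (fun t => Ψ (t, 0)) (fun t => Ψ (-(ε * Real.cos t), 0))
      (fun t => -(ε * Real.cos t)) 0 Real.pi (-ε) ε (Ψ p) ?_ ?_ ?_ ?_ ?_ ?_ ?_ ?_
    · exact Ψ.continuous.comp (continuous_id.prodMk continuous_const)
    · exact Ψ.continuous.comp
        ((continuous_const.mul Real.continuous_cos).neg.prodMk continuous_const)
    · exact (continuous_const.mul Real.continuous_cos).neg.continuousOn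
    · intro t _
      rw [uIcc_of_le (by linarith)]
      constructor
      · nlinarith [Real.cos_le_one t]
      · nlinarith [Real.neg_one_le_cos t]
    · simp
    · simp
    · intro t _
      rfl
    · intro t _ h
      have h' := Ψ.injective h
      refine hp 0 le_rfl ?_
      rw [← h']
      simp
  have e2 := h2 (fun τ t => Ψ (-(ε * Real.cos t), c * (τ * (ε * Real.sin t)))) 0 Real.pi (Ψ p)
    ?_ ?_ ?_
  · rw [← e1]
    have e3 : (fun t => Ψ (-(ε * Real.cos t), c * ((0 : ℝ) * (ε * Real.sin t)))) =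
        fun t => Ψ (-(ε * Real.cos t), 0) := by
      funext t
      simp
    have e4 : (fun t => Ψ (-(ε * Real.cos t), c * ((1 : ℝ) * (ε * Real.sin t)))) =
        fun t => Ψ (-(ε * Real.cos t), c * (ε * Real.sin t)) := by
      funext t
      simp
    rw [← e3, ← e4]
    exact e2
  · refine Ψ.continuous.comp (Continuous.prodMk ?_ ?_)
    · exact (continuous_const.mul (Real.continuous_cos.comp continuous_snd)).neg
    · exact continuous_const.mul (continuous_fst.mul
        (continuous_const.mul (Real.continuous_sin.comp continuous_snd)))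
  · intro τ hτ t ht h
    rw [uIcc_of_le hpi] at ht
    have h' := Ψ.injective h
    refine hp (τ * (ε * Real.sin t)) (mul_nonneg hτ.1 (mul_nonneg hε.le
      (Real.sin_nonneg_of_nonneg_of_le_pi ht.1 ht.2))) ?_
    rw [← h']
  · intro τ _
    constructor <;> simp

theorem seg_thm (h1 : REP_S) (h2 : HRE_S) : SEG_S := by
  intro Ψ ε p hε _
  constructor
  · intro hp
    have h := seg_aux h1 h2 Ψ ε p hε (-1) (fun x hx e => by linarith)
    rw [h]
    have e : (fun t => Ψ (-(ε * Real.cos t), -1 * (ε * Real.sin t))) =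
        fun t => Ψ (low ε t) := by
      funext t
      simp [low]
    rw [e]
  · intro hp
    have h := seg_aux h1 h2 Ψ ε p hε 1 (fun x hx e => by linarith)
    rw [h]
    have e : (fun t => Ψ (-(ε * Real.cos t), 1 * (ε * Real.sin t))) =
        fun t => Ψ (upp ε t) := by
      funext t
      simp [upp]
    rw [e]

end Pool.JCT
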