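import Pool.Agent.H96.JCT.Stmts

/-!
Row SEL of the board `jct`: choice of a short part of the piece around `s`.
-/

set_option autoImplicit false

namespace Pool.JCT

open Complex Set Topology Filter

theorem sel_real (X : ℝ → ℝ) (hX : Continuous X) (s δ : ℝ) (hδ : 0 < δ) (hs : X s = 0)
    (hm : StrictMonoOn X (Icc (s - δ) (s + δ))) :
    ∃ ε s₁ s₂ : ℝ, 0 < ε ∧ s - δ ≤ s₁ ∧ s₁ < s ∧ s < s₂ ∧ s₂ ≤ s + δ ∧ X s₁ = -ε ∧ X s₂ = ε ∧
      ∀ t ∈ Icc s₁ s₂, X t ∈ Icc (-ε) ε := by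
  have m1 : s - δ ∈ Icc (s - δ) (s + δ) := ⟨le_rfl, by linarith⟩
  have m2 : s + δ ∈ Icc (s - δ) (s + δ) := ⟨by linarith, le_rfl⟩
  have m0 : s ∈ Icc (s - δ) (s + δ) := ⟨by linarith, by linarith⟩
  have h1 : X (s - δ) < 0 := hs ▸ hm m1 m0 (by linarith)
  have h2 : 0 < X (s + δ) := hs ▸ hm m0 m2 (by linarith)
  have hε : 0 < min (-X (s - δ)) (X (s + δ)) := lt_min (by linarith) h2
  obtain ⟨s₁, ⟨a1, a2⟩, a3⟩ := intermediate_value_Icc (by linarith : s - δ ≤ s)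
    hX.continuousOn (show -min (-X (s - δ)) (X (s + δ)) ∈ Icc (X (s - δ)) (X s) from
      ⟨by linarith [min_le_left (-X (s - δ)) (X (s + δ))], by rw [hs]; linarith⟩)
  obtain ⟨s₂, ⟨b1, b2⟩, b3⟩ := intermediate_value_Icc (by linarith : s ≤ s + δ)
    hX.continuousOn (show min (-X (s - δ)) (X (s + δ)) ∈ Icc (X s) (X (s + δ)) from
      ⟨by rw [hs]; exact hε.le, min_le_right _ _⟩)
  have a4 : s₁ < s := lt_of_le_of_ne a2 (by
    rintro rfl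
    rw [hs] at a3
    linarith)
  have b4 : s < s₂ := lt_of_le_of_ne b1 (by
    rintro rfl
    rw [hs] at b3
    linarith)
  refine ⟨_, s₁, s₂, hε, a1, a4, b4, b2, a3, b3, fun t ht => ?_⟩
  have k1 : s₁ ∈ Icc (s - δ) (s + δ) := ⟨a1, by linarith⟩
  have k2 : s₂ ∈ Icc (s - δ) (s + δ) := ⟨by linarith, b2⟩
  have kt : t ∈ Icc (s - δ) (s + δ) := ⟨a1.trans ht.1, ht.2.trans b2⟩
  exact ⟨a3 ▸ hm.monotoneOn k1 kt ht.1, b3 ▸ hm.monotoneOn kt k2 ht.2⟩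

theorem sel_thm (h : MON_S) : SEL_S := by
  intro Φ U f a b s hU hf hinj hab has hsb hsU hs0 hax
  have ha : 0 ≤ a := (hab ⟨le_rfl, (has.trans hsb).le⟩).1
  have hb : b ≤ 1 := (hab ⟨(has.trans hsb).le, le_rfl⟩).2
  obtain ⟨δ, hδ, h1, h2, h3⟩ := h Φ U f s hU hf hinj ⟨ha.trans_lt has, hsb.trans_le hb⟩ hsU hax
  set δ' := min δ (min ((s - a) / 2) ((b - s) / 2)) with hδ'
  have p0 : 0 < δ' := lt_min hδ (lt_min (by linarith) (by linarith))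
  have p1 : δ' ≤ δ := min_le_left _ _
  have p2 : δ' ≤ (s - a) / 2 := (min_le_right _ _).trans (min_le_left _ _)
  have p3 : δ' ≤ (b - s) / 2 := (min_le_right _ _).trans (min_le_right _ _)
  have hsub : Icc (s - δ') (s + δ') ⊆ Icc (s - δ) (s + δ) :=
    Icc_subset_Icc (by linarith) (by linarith)
  have hXc : Continuous (fun t => (Φ (f t)).1) := (Φ.continuous.comp hf).fst
  have hXs : (fun t => (Φ (f t)).1) s = 0 := by
    simp only [hs0]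
  have hsec : ∀ t ∈ Icc (s - δ') (s + δ'), (Φ (f t)).2 = 0 := fun t ht =>
    hax _ (h2 t (hsub ht)) ⟨t, h1 (hsub ht), rfl⟩
  rcases h3 with h3 | h3
  · obtain ⟨ε, s₁, s₂, hε, a1, a2, a3, a4, a5, a6, a7⟩ :=
      sel_real _ hXc s δ' p0 hXs (h3.mono hsub)
    refine ⟨ε, s₁, s₂, hε, by linarith, a2, a3, by linarith, fun t ht => ⟨?_, a7 t ht⟩,
      Or.inl ⟨a5, a6⟩⟩
    exact hsec t ⟨a1.trans ht.1, ht.2.trans a4⟩
  · obtain ⟨ε, s₁, s₂, hε, a1, a2, a3, a4, a5, a6, a7⟩ :=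
      sel_real (fun t => -(Φ (f t)).1) hXc.neg s δ' p0 (by simpa using hXs)
        (fun x hx y hy hxy => neg_lt_neg (h3 (hsub hx) (hsub hy) hxy))
    refine ⟨ε, s₁, s₂, hε, by linarith, a2, a3, by linarith, fun t ht => ⟨?_, ?_⟩,
      Or.inr ⟨?_, ?_⟩⟩
    · exact hsec t ⟨a1.trans ht.1, ht.2.trans a4⟩
    · have := a7 t ht
      exact ⟨by linarith [this.2], by linarith [this.1]⟩
    · linarith
    · linarith

end Pool.JCT
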